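import Pool.Agent.H2N.ST.Defs

/-!
# Orthogonal families of rank three over a number field: definitions

`K` is a number field.  An orthogonal family of rank three, of determinant one and weight zero (for
example a part of rank three of `H^i(X)(i/2)`, `i` even) is given by the rotation angles `θ_v` of
Frobenius: the eigenvalues are `1`, `e^{iθ_v}`, `e^{-iθ_v}`.
-/

set_option autoImplicit false

namespace Pool.Agent.H2N.SO

open NumberField IsDedekindDomain Filter Topology Polynomial
open Pool.Agent.W353.EH (edgePoint)

/-- The trace of a rotation by the angle `φ` in the irreducible representation of `SO(3)` of dimension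
`2 k + 1`: `1 + 2 cos φ + 2 cos 2φ + ... + 2 cos kφ`. -/
noncomputable def trace (k : ℕ) (φ : ℝ) : ℝ := 1 + 2 * ∑ j ∈ Finset.range k, Real.cos ((j + 1 : ℕ) * φ)

/-- The polynomials `B v` are the Euler factors of `L(V_k, s)`, `V_k` the irreducible representation of
`SO(3)` of dimension `2 k + 1`, for the orthogonal family of rank three with the angles `θ_v`: for almost
all primes `v`, `B_v(z)` is the product of the `1 - e^{i m θ_v} z` for `m = k, k - 1, ..., -k`; at the other
primes `B v` is an arbitrary polynomial, and no factor `1 / B_v(q_v^{-s})` has a pole at the point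
`s = 1 + i τ`. -/
def IsRankThree {K : Type} [Field K] [NumberField K] (θ : HeightOneSpectrum (𝓞 K) → ℝ) (k : ℕ)
    (τ : ℝ) (B : HeightOneSpectrum (𝓞 K) → ℂ[X]) : Prop :=
  (∀ᶠ v in cofinite, ∀ z : ℂ, (B v).eval z =
    ∏ j : Fin (2 * k + 1), (1 - Complex.exp ((((k : ℝ) - (j : ℕ)) * θ v : ℝ) * Complex.I) * z)) ∧
  ∀ v, (B v).eval ((Ideal.absNorm v.asIdeal : ℂ) ^ (-edgePoint 0 τ)) ≠ 0

end Pool.Agent.H2N.SO
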