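import Pool.Agent.H2N.ST.Level
import Pool.Agent.H2N.SO.Defs

/-!
Orthogonal families of rank three: positivity and finite levels.
-/

set_option autoImplicit false

namespace Pool.Agent.H2N.SO

open Complex Filter Topology ComplexConjugate NumberField IsDedekindDomain Asymptotics
  Pool.Agent.W401.Cheb Pool.Agent.W540.BE Pool.Agent.W353.L1 Polynomial
open Pool.Agent.W353.EH (edgePoint size HasOrder)
open Pool.Agent.H2N.ST (IsSymFamily DirichletMean positivity_heights)

/-! ### The trace and Chebyshev polynomials -/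

theorem U_even (k : ℕ) (φ : ℝ) :
    (Chebyshev.U ℝ ((2 * k : ℕ) : ℤ)).eval (Real.cos φ) = trace k (2 * φ) := by
  induction k with
  | zero => simp [trace]
  | succ k ih =>
    have h1 : (((2 * (k + 1) : ℕ)) : ℤ) = ((2 * k : ℕ) : ℤ) + 2 := by push_cast; ring
    rw [h1, Chebyshev.U_eq_two_mul_T_add_U, eval_add, eval_mul, ih]
    have h2 : (Chebyshev.T ℝ (((2 * k : ℕ) : ℤ) + 2)).eval (Real.cos φ) =
        Real.cos (((k + 1 : ℕ) : ℝ) * (2 * φ)) := by
      rw [Polynomial.Chebyshev.T_real_cos]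
      congr 1
      push_cast
      ring
    rw [h2]
    unfold trace
    rw [Finset.sum_range_succ]
    have h3 : (2 : ℝ[X]).eval (Real.cos φ) = 2 := by simp
    rw [h3]
    ring

theorem U_angle (k : ℕ) (φ : ℝ) :
    (Chebyshev.U ℝ ((2 * k : ℕ) : ℤ)).eval ((2 * Real.cos (φ / 2)) / 2) = trace k φ := by
  have h1 : (2 * Real.cos (φ / 2)) / 2 = Real.cos (φ / 2) := by ring
  rw [h1, U_even]
  congr 1
  ring

section
variable {K : Type} [Field K] [NumberField K]

/-- half the angle gives a two-dimensional family -/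
theorem IsRankThree.sym {θ : HeightOneSpectrum (𝓞 K) → ℝ} {k : ℕ} {τ : ℝ}
    {B : HeightOneSpectrum (𝓞 K) → ℂ[X]} (h : IsRankThree θ k τ B) :
    IsSymFamily (fun v => 2 * Real.cos (θ v / 2)) 0 (2 * k) τ B := by
  refine ⟨h.1.mono fun v hv => ?_, h.2⟩
  refine ⟨Complex.exp (((θ v / 2 : ℝ) : ℂ) * I), Complex.exp (-(((θ v / 2 : ℝ) : ℂ) * I)), ?_, ?_,
    fun z => ?_⟩
  · rw [Nat.cast_zero, zero_div, Real.rpow_zero, mul_one, Complex.ofReal_mul, Complex.ofReal_cos,
      Complex.cos]
    push_cast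
    ring_nf
  · rw [← Complex.exp_add, add_neg_cancel, Complex.exp_zero, pow_zero]
  · rw [hv z]
    refine Finset.prod_congr rfl fun j _ => ?_
    congr 2
    rw [← Complex.exp_nat_mul, ← Complex.exp_nat_mul, ← Complex.exp_add]
    congr 1
    have hj : (j : ℕ) ≤ 2 * k := by have := j.2; omega
    push_cast [Nat.cast_sub hj]
    ring

theorem abs_two_cos (x : ℝ) : |2 * Real.cos x| ≤ 2 := by
  rw [abs_mul, abs_two]
  have := Real.abs_cos_le_one x
  linarith

/-- **Positivity with heights for rank three.** -/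
theorem positivity (θ : HeightOneSpectrum (𝓞 K) → ℝ)
    (S : Finset ℕ) (c : ℕ → ℝ) (c₀ : ℝ)
    (hP : ∀ φ : ℝ, 0 ≤ c₀ + ∑ k ∈ S, c k * trace k φ)
    {κ : Type} (H : Finset κ) (e τ : κ → ℝ) (hτ : ∀ h ∈ H, τ h ≠ 0)
    (hT : ∀ u : ℝ, 0 ≤ 1 + ∑ h ∈ H, e h * Real.cos (τ h * u))
    (B₀ : ℕ → HeightOneSpectrum (𝓞 K) → ℂ[X]) (hB₀ : ∀ k ∈ S, IsRankThree θ k 0 (B₀ k))
    (B : ℕ → κ → HeightOneSpectrum (𝓞 K) → ℂ[X])
    (hB : ∀ k ∈ S, ∀ h ∈ H, IsRankThree θ k (τ h) (B k h)) :
    (∀ η : ℝ, 0 < η → ∀ᶠ ε : ℝ in 𝓝[>] 0, -η ≤ c₀ + ∑ k ∈ S, c k *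
      (size 0 0 (B₀ k) ε + ∑ h ∈ H, e h * size 0 (τ h) (B k h) ε)) ∧
    ∀ (m₀ : ℕ → ℤ) (m : ℕ → κ → ℤ), (∀ k ∈ S, HasOrder 0 0 (B₀ k) (m₀ k)) →
      (∀ k ∈ S, ∀ h ∈ H, HasOrder 0 (τ h) (B k h) (m k h)) →
      0 ≤ c₀ - ∑ k ∈ S, c k * (m₀ k + ∑ h ∈ H, e h * m k h) := by
  classical
  have hinj : ∀ x ∈ S, ∀ y ∈ S, 2 * x = 2 * y → x = y := fun x _ y _ h => by omega
  have hmem : ∀ n ∈ S.image (fun k => 2 * k), n / 2 ∈ S ∧ 2 * (n / 2) = n := by
    intro n hn
    obtain ⟨k, hk, rfl⟩ := Finset.mem_image.1 hn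
    have e1 : 2 * k / 2 = k := by omega
    rw [e1]
    exact ⟨hk, rfl⟩
  have h := positivity_heights (t := fun v => 2 * Real.cos (θ v / 2))
    (fun v => abs_two_cos _) 0 (S.image fun k => 2 * k) (fun n => c (n / 2)) c₀ (by
      intro x hx
      rw [Finset.sum_image hinj]
      have h1 := hP (2 * Real.arccos (x / 2))
      have h2 : x / 2 = Real.cos (Real.arccos (x / 2)) := by
        rw [Real.cos_arccos]
        · linarith [(abs_le.1 hx).1]
        · linarith [(abs_le.1 hx).2]
      refine h1.trans_eq ?_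
      congr 1
      refine Finset.sum_congr rfl fun k _ => ?_
      have e1 : 2 * k / 2 = k := by omega
      rw [e1, ← U_even, ← h2]) H e τ hτ hT (fun n => B₀ (n / 2)) (by
      intro n hn
      obtain ⟨h1, h2⟩ := hmem n hn
      have := (hB₀ _ h1).sym
      rwa [h2] at this) (fun n h => B (n / 2) h) (by
      intro n hn h hh
      obtain ⟨h1, h2⟩ := hmem n hn
      have := (hB _ h1 h hh).sym
      rwa [h2] at this)
  have e2 : ∀ k : ℕ, 2 * k / 2 = k := fun k => by omega
  refine ⟨fun η hη => (h.1 η hη).mono fun ε hε => ?_, fun m₀ m hm₀ hm => ?_⟩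
  · rw [Finset.sum_image hinj] at hε
    simp only [e2, Nat.mul_zero] at hε
    exact hε
  · have h3 := h.2 (fun n => m₀ (n / 2)) (fun n => m (n / 2)) (fun n hn => hm₀ _ (hmem n hn).1)
      (fun n hn h hh => hm _ (hmem n hn).1 h hh)
    rw [Finset.sum_image hinj] at h3
    simp only [e2] at h3
    exact h3

end

/-! ### Multiplicities in the tensor square of `V_0 + ... + V_n` -/

/-- the multiplicity of `V_k` in the tensor square of `V_0 + ... + V_n` -/
def mu (n k : ℕ) : ℕ :=
  ∑ a ∈ Finset.range (n + 1), ∑ b ∈ Finset.range (n + 1), ∑ i ∈ Finset.range (2 * min a b + 1),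
    if (max a b - min a b) + i = k then 1 else 0

theorem trace_mul (φ : ℝ) (a b : ℕ) : trace a φ * trace b φ =
    ∑ i ∈ Finset.range (2 * min a b + 1), trace ((max a b - min a b) + i) φ := by
  have h : φ = 2 * (φ / 2) := by ring
  rw [h, ← U_even, ← U_even, Pool.Agent.H2N.ST.U_mul_nat]
  have e1 : min (2 * a) (2 * b) = 2 * min a b := by omega
  rw [e1]
  refine Finset.sum_congr rfl fun i _ => ?_
  rw [← U_even]
  congr 2
  unfold Pool.Agent.H2N.ST.idx
  push_cast
  omega

theorem square_expand (n : ℕ) (φ : ℝ) :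
    (∑ a ∈ Finset.range (n + 1), trace a φ) ^ 2 =
      ∑ k ∈ Finset.range (2 * n + 1), (mu n k : ℝ) * trace k φ := by
  have h1 : ∀ a ∈ Finset.range (n + 1), ∀ b ∈ Finset.range (n + 1),
      ∀ i ∈ Finset.range (2 * min a b + 1), trace ((max a b - min a b) + i) φ =
      ∑ k ∈ Finset.range (2 * n + 1), (if (max a b - min a b) + i = k then (1 : ℝ) else 0) *
        trace k φ := by
    intro a ha b hb i hi
    rw [Finset.mem_range] at ha hb hi
    have h2 : (max a b - min a b) + i ∈ Finset.range (2 * n + 1) := by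
      rw [Finset.mem_range]
      omega
    rw [Finset.sum_eq_single ((max a b - min a b) + i)]
    · rw [if_pos rfl, one_mul]
    · intro k _ hk
      rw [if_neg (fun h => hk h.symm), zero_mul]
    · intro h
      exact absurd h2 h
  rw [sq, Finset.sum_mul_sum]
  calc ∑ a ∈ Finset.range (n + 1), ∑ b ∈ Finset.range (n + 1), trace a φ * trace b φ
      = ∑ a ∈ Finset.range (n + 1), ∑ b ∈ Finset.range (n + 1),
        ∑ i ∈ Finset.range (2 * min a b + 1), ∑ k ∈ Finset.range (2 * n + 1),
          (if (max a b - min a b) + i = k then (1 : ℝ) else 0) * trace k φ := by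
        refine Finset.sum_congr rfl fun a ha => Finset.sum_congr rfl fun b hb => ?_
        rw [trace_mul]
        exact Finset.sum_congr rfl fun i hi => h1 a ha b hb i hi
    _ = ∑ k ∈ Finset.range (2 * n + 1), ∑ a ∈ Finset.range (n + 1),
        ∑ b ∈ Finset.range (n + 1), ∑ i ∈ Finset.range (2 * min a b + 1),
          (if (max a b - min a b) + i = k then (1 : ℝ) else 0) * trace k φ := by
        symm
        rw [Finset.sum_comm]
        refine Finset.sum_congr rfl fun a _ => ?_
        rw [Finset.sum_comm]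
        refine Finset.sum_congr rfl fun b _ => ?_
        rw [Finset.sum_comm]
    _ = _ := by
        refine Finset.sum_congr rfl fun k _ => ?_
        unfold mu
        push_cast
        rw [Finset.sum_mul]
        refine Finset.sum_congr rfl fun a _ => ?_
        rw [Finset.sum_mul]
        refine Finset.sum_congr rfl fun b _ => ?_
        rw [Finset.sum_mul]

theorem mu_zero (n : ℕ) : mu n 0 = n + 1 := by
  unfold mu
  have h : ∀ a ∈ Finset.range (n + 1), ∑ b ∈ Finset.range (n + 1),
      ∑ i ∈ Finset.range (2 * min a b + 1), (if (max a b - min a b) + i = 0 then 1 else 0) = 1 := by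
    intro a ha
    rw [Finset.sum_eq_single a]
    · rw [Finset.sum_eq_single 0]
      · simp
      · intro i _ hi
        rw [if_neg]
        omega
      · intro h
        exact absurd (Finset.mem_range.2 (Nat.succ_pos _)) h
    · intro b _ hb
      refine Finset.sum_eq_zero fun i _ => ?_
      rw [if_neg]
      omega
    · intro h
      exact absurd ha h
  rw [Finset.sum_congr rfl h]
  simp

theorem inner_pos {a b j : ℕ} (h1 : max a b - min a b ≤ j) (h2 : j ≤ a + b) :
    1 ≤ ∑ i ∈ Finset.range (2 * min a b + 1), (if (max a b - min a b) + i = j then 1 else 0) := by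
  have h3 : j - (max a b - min a b) ∈ Finset.range (2 * min a b + 1) := by
    rw [Finset.mem_range]; omega
  have h4 := Finset.single_le_sum
    (f := fun i => if (max a b - min a b) + i = j then 1 else 0)
    (fun _ _ => Nat.zero_le _) h3
  have h5 : (max a b - min a b) + (j - (max a b - min a b)) = j := by omega
  simp only [h5, if_true] at h4
  exact h4

theorem mu_ge {j : ℕ} (hj : 1 ≤ j) : j + 2 ≤ mu j j := by
  unfold mu
  set f : ℕ → ℕ := fun a => ∑ b ∈ Finset.range (j + 1), ∑ i ∈ Finset.range (2 * min a b + 1),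
    (if (max a b - min a b) + i = j then 1 else 0) with hf
  have h1 : ∀ a ∈ Finset.range (j + 1), 1 ≤ f a := by
    intro a ha
    rw [Finset.mem_range] at ha
    have h2 : j ∈ Finset.range (j + 1) := by rw [Finset.mem_range]; omega
    exact (inner_pos (a := a) (b := j) (j := j) (by omega) (by omega)).trans
      (Finset.single_le_sum (f := fun b => ∑ i ∈ Finset.range (2 * min a b + 1),
        (if (max a b - min a b) + i = j then 1 else 0)) (fun _ _ => Nat.zero_le _) h2)
  have h2 : 2 ≤ f 1 := by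
    have e : ({j - 1, j} : Finset ℕ) ⊆ Finset.range (j + 1) := by
      intro b hb
      rw [Finset.mem_insert, Finset.mem_singleton] at hb
      rw [Finset.mem_range]
      omega
    have h3 := Finset.sum_le_sum_of_subset (f := fun b => ∑ i ∈ Finset.range (2 * min 1 b + 1),
      (if (max 1 b - min 1 b) + i = j then 1 else 0)) e
    rw [Finset.sum_pair (by omega)] at h3
    have h4 := inner_pos (a := 1) (b := j - 1) (j := j) (by omega) (by omega)
    have h5 := inner_pos (a := 1) (b := j) (j := j) (by omega) (by omega)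
    exact (by omega : 2 ≤ _).trans h3
  have h6 : ∑ a ∈ Finset.range (j + 1), (if a = 1 then 2 else 1) ≤
      ∑ a ∈ Finset.range (j + 1), f a := by
    refine Finset.sum_le_sum fun a ha => ?_
    split_ifs with h
    · rw [h]; exact h2
    · exact h1 a ha
  refine le_trans ?_ h6
  have h7 : ∑ a ∈ Finset.range (j + 1), (if a = 1 then 2 else 1) =
      ∑ a ∈ Finset.range (j + 1), ((if a = 1 then 1 else 0) + 1) := by
    refine Finset.sum_congr rfl fun a _ => ?_
    split_ifs <;> rfl
  rw [h7, Finset.sum_add_distrib, Finset.sum_ite_eq', if_pos (by rw [Finset.mem_range]; omega)]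
  simp
  omega

/-- the nonnegative combination for `V_j` -/
theorem weights {j : ℕ} (φ : ℝ) : 0 ≤ ((j + 1 : ℕ) : ℝ) + ∑ k ∈ Finset.Icc 1 (2 * j),
    (mu j k : ℝ) * trace k φ := by
  have h4 := square_expand j φ
  rw [Finset.sum_range_succ' (fun k : ℕ => (mu j k : ℝ) * trace k φ), mu_zero] at h4
  have h5 : ∑ k ∈ Finset.Icc 1 (2 * j), (mu j k : ℝ) * trace k φ =
      ∑ k ∈ Finset.range (2 * j), (mu j (k + 1) : ℝ) * trace (k + 1) φ := by
    have e : Finset.Icc 1 (2 * j) = Finset.Ico (0 + 1) (2 * j + 1) := by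
      ext k
      rw [Finset.mem_Icc, Finset.mem_Ico]
      omega
    rw [e, Finset.range_eq_Ico, ← Finset.sum_Ico_add'
      (fun k : ℕ => (mu j k : ℝ) * trace k φ) 0 (2 * j) 1]
  rw [h5]
  have h6 : (0 : ℝ) ≤ (∑ a ∈ Finset.range (j + 1), trace a φ) ^ 2 := sq_nonneg _
  rw [h4] at h6
  have h7 : trace 0 φ = 1 := by simp [trace]
  rw [h7, mul_one] at h6
  linarith

end Pool.Agent.H2N.SO
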