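import Pool.Agent.H2N.SO.Core

/-!
Orthogonal families of rank three: consequences of the holomorphy of finitely many `L(V_k, s)`.
-/

set_option autoImplicit false

namespace Pool.Agent.H2N.SO

open Complex Filter Topology ComplexConjugate NumberField IsDedekindDomain Asymptotics
  Pool.Agent.W401.Cheb Pool.Agent.W540.BE Pool.Agent.W353.L1 Polynomial
open Pool.Agent.H341R2 (lam lam_tendsto)
open Pool.Agent.W353.EH (edgePoint size HasOrder)
open Pool.Agent.H2N.ST (IsSymFamily DirichletMean)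
open Pool.Agent.H2N.TL (size_lim)

section
variable {K : Type} [Field K] [NumberField K]

/-- the real point -/
theorem level_zero (θ : HeightOneSpectrum (𝓞 K) → ℝ) {j : ℕ} (hj : 1 ≤ j)
    (B₀ : ℕ → HeightOneSpectrum (𝓞 K) → ℂ[X])
    (hB₀ : ∀ k ∈ Finset.Icc 1 (2 * j), IsRankThree θ k 0 (B₀ k)) (m₀ : ℕ → ℤ)
    (hm₀ : ∀ k ∈ Finset.Icc 1 (2 * j), HasOrder 0 0 (B₀ k) (m₀ k) ∧ 0 ≤ m₀ k) :
    m₀ j = 0 := by
  have hjm : j ∈ Finset.Icc 1 (2 * j) := by rw [Finset.mem_Icc]; omega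
  have h := (positivity (κ := Empty) θ (Finset.Icc 1 (2 * j)) (fun k => (mu j k : ℝ))
    ((j + 1 : ℕ) : ℝ) (fun φ => weights φ) ∅ (fun _ => 0) (fun _ => 0) (by simp) (by simp) B₀ hB₀
    (fun k _ => B₀ k) (by simp)).2 m₀ (fun _ _ => 0) (fun k hk => (hm₀ k hk).1) (by simp)
  simp only [Finset.sum_empty, add_zero] at h
  have h1 : (mu j j : ℝ) * m₀ j ≤ ∑ k ∈ Finset.Icc 1 (2 * j), (mu j k : ℝ) * (m₀ k : ℝ) :=
    Finset.single_le_sum (f := fun k => (mu j k : ℝ) * (m₀ k : ℝ))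
      (fun k hk => mul_nonneg (Nat.cast_nonneg _) (by exact_mod_cast (hm₀ k hk).2)) hjm
  have h2 := (hm₀ j hjm).2
  have hge : ((j + 2 : ℕ) : ℝ) ≤ (mu j j : ℝ) := by exact_mod_cast mu_ge hj
  push_cast at hge h
  by_contra hne
  have h3 : (1 : ℤ) ≤ m₀ j := by omega
  have h4 : (1 : ℝ) ≤ (m₀ j : ℝ) := by exact_mod_cast h3
  have h5 : (mu j j : ℝ) * 1 ≤ mu j j * m₀ j := mul_le_mul_of_nonneg_left h4 (Nat.cast_nonneg _)
  linarith

/-- a height `τ ≠ 0` -/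
theorem level_height (θ : HeightOneSpectrum (𝓞 K) → ℝ) {j : ℕ} (hj : 1 ≤ j) {τ : ℝ} (hτ : τ ≠ 0)
    (B₀ B : ℕ → HeightOneSpectrum (𝓞 K) → ℂ[X])
    (hB₀ : ∀ k ∈ Finset.Icc 1 (2 * j), IsRankThree θ k 0 (B₀ k))
    (hB : ∀ k ∈ Finset.Icc 1 (2 * j), IsRankThree θ k τ (B k)) (m₀ m : ℕ → ℤ)
    (hm₀ : ∀ k ∈ Finset.Icc 1 (2 * j), HasOrder 0 0 (B₀ k) (m₀ k) ∧ 0 ≤ m₀ k)
    (hm : ∀ k ∈ Finset.Icc 1 (2 * j), HasOrder 0 τ (B k) (m k) ∧ 0 ≤ m k) :
    m j = 0 := by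
  have hjm : j ∈ Finset.Icc 1 (2 * j) := by rw [Finset.mem_Icc]; omega
  have h := (positivity (κ := Unit) θ (Finset.Icc 1 (2 * j)) (fun k => (mu j k : ℝ))
    ((j + 1 : ℕ) : ℝ) (fun φ => weights φ) Finset.univ
    (fun _ => 1) (fun _ => τ) (fun _ _ => hτ) (fun u => by
      simp only [Finset.univ_unique, Finset.sum_singleton, one_mul]
      linarith [Real.neg_one_le_cos (τ * u)]) B₀ hB₀ (fun k _ => B k)
      (fun k hk _ _ => hB k hk)).2 m₀ (fun k _ => m k) (fun k hk => (hm₀ k hk).1)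
      (fun k hk _ _ => (hm k hk).1)
  simp only [Finset.univ_unique, Finset.sum_singleton, one_mul] at h
  have h1 : (mu j j : ℝ) * ((m₀ j : ℝ) + m j) ≤
      ∑ k ∈ Finset.Icc 1 (2 * j), (mu j k : ℝ) * ((m₀ k : ℝ) + m k) :=
    Finset.single_le_sum (f := fun k => (mu j k : ℝ) * ((m₀ k : ℝ) + m k))
      (fun k hk => mul_nonneg (Nat.cast_nonneg _) (by
        have e1 : (0 : ℝ) ≤ (m₀ k : ℝ) := by exact_mod_cast (hm₀ k hk).2
        have e2 : (0 : ℝ) ≤ (m k : ℝ) := by exact_mod_cast (hm k hk).2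
        linarith)) hjm
  have h2 := (hm j hjm).2
  have h2' := (hm₀ j hjm).2
  have hge : ((j + 2 : ℕ) : ℝ) ≤ (mu j j : ℝ) := by exact_mod_cast mu_ge hj
  push_cast at hge h
  by_contra hne
  have h3 : (1 : ℤ) ≤ m₀ j + m j := by omega
  have h4 : (1 : ℝ) ≤ (m₀ j : ℝ) + m j := by exact_mod_cast h3
  have h5 : (mu j j : ℝ) * 1 ≤ mu j j * ((m₀ j : ℝ) + m j) :=
    mul_le_mul_of_nonneg_left h4 (Nat.cast_nonneg _)
  linarith

/-- the mean values of the traces of small level -/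
theorem level_mean (θ : HeightOneSpectrum (𝓞 K) → ℝ) {R : ℕ}
    (B₀ : ℕ → HeightOneSpectrum (𝓞 K) → ℂ[X])
    (hB₀ : ∀ k ∈ Finset.Icc 1 (2 * R), IsRankThree θ k 0 (B₀ k)) (m₀ : ℕ → ℤ)
    (hm₀ : ∀ k ∈ Finset.Icc 1 (2 * R), HasOrder 0 0 (B₀ k) (m₀ k) ∧ 0 ≤ m₀ k)
    (a : ℕ → ℝ) : DirichletMean (fun v => ∑ k ∈ Finset.range (R + 1),
      a k * trace k (θ v)) (a 0) := by
  have ht : ∀ v, |(fun v => 2 * Real.cos (θ v / 2)) v| ≤ 2 := fun v => abs_two_cos _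
  have hz : ∀ k, 1 ≤ k → k ≤ R → m₀ k = 0 := by
    intro k h1 h2
    have hsub : ∀ x, x ∈ Finset.Icc 1 (2 * k) → x ∈ Finset.Icc 1 (2 * R) := by
      intro x hx
      rw [Finset.mem_Icc] at hx ⊢
      exact ⟨hx.1, hx.2.trans (by omega)⟩
    exact level_zero θ h1 B₀ (fun x hx => hB₀ x (hsub x hx)) m₀ (fun x hx => hm₀ x (hsub x hx))
  have hk : ∀ k ∈ Finset.range (R + 1), Tendsto (fun ε : ℝ => (EP (nm K) ε fun v =>
      trace k (θ v)) / lam ε) (𝓝[>] 0) (𝓝 (if k = 0 then 1 else 0)) := by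
    intro k hk
    rw [Finset.mem_range] at hk
    by_cases h0 : k = 0
    · subst h0
      rw [if_pos rfl]
      have h7 : ∀ φ : ℝ, trace 0 φ = 1 := fun φ => by simp [trace]
      simp only [h7]
      exact EP_one K
    · rw [if_neg h0]
      have hmem : k ∈ Finset.Icc 1 (2 * R) := by rw [Finset.mem_Icc]; omega
      obtain ⟨h1, h2⟩ := Pool.Agent.H2N.ST.sym_near ht 0 (2 * k) 0 (hB₀ k hmem).sym
      have h3 := size_lim h1 (hm₀ k hmem).1
      rw [hz k (by omega) (by omega)] at h3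
      have h4 := h2.2
      simp only [Pool.Agent.H2N.ST.zz_zero_re, mul_one, U_angle] at h4
      have h5 := h4.add h3
      simp only [sub_add_cancel, Int.cast_zero, neg_zero, add_zero] at h5
      exact h5
  have hsum : Tendsto (fun ε : ℝ => ∑ k ∈ Finset.range (R + 1), a k * ((EP (nm K) ε fun v =>
      trace k (θ v)) / lam ε)) (𝓝[>] 0)
      (𝓝 (∑ k ∈ Finset.range (R + 1), a k * (if k = 0 then 1 else 0))) :=
    tendsto_finsetSum _ fun k hk' => (hk k hk').const_mul (a k)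
  have ha : ∑ k ∈ Finset.range (R + 1), a k * (if k = 0 then (1 : ℝ) else 0) = a 0 := by
    simp
  rw [ha] at hsum
  have hbd : ∀ (k : ℕ) (v : HeightOneSpectrum (𝓞 K)), |trace k (θ v)| ≤
      Pool.Agent.H2N.SY.ub (2 * k) := by
    intro k v
    rw [← U_angle]
    exact Pool.Agent.H2N.SY.ub_spec (2 * k) (ht v)
  have h1 : Tendsto (fun ε : ℝ => (EP (nm K) ε fun v => ∑ k ∈ Finset.range (R + 1),
      a k * trace k (θ v)) / lam ε) (𝓝[>] 0) (𝓝 (a 0)) := by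
    refine hsum.congr' ?_
    filter_upwards [self_mem_nhdsWithin] with ε hε
    have hε' : (0 : ℝ) < ε := hε
    rw [EP_sum normSys hε' (Finset.range (R + 1))
      (fun k v => a k * trace k (θ v))
      (fun k => |a k| * Pool.Agent.H2N.SY.ub (2 * k)) (by
        intro k _ v
        rw [abs_mul]
        exact mul_le_mul_of_nonneg_left (hbd k v) (abs_nonneg _)), Finset.sum_div]
    refine Finset.sum_congr rfl fun k _ => ?_
    rw [EP_const_mul, mul_div_assoc]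
  have h2 := h1.div (EP_one K) one_ne_zero
  rw [div_one] at h2
  unfold DirichletMean
  refine h2.congr' ?_
  filter_upwards [lam_tendsto.eventually_gt_atTop 0] with ε hε
  rw [Pi.div_apply, div_div_div_cancel_right₀ hε.ne']
  unfold EP
  simp only [one_mul]
  rfl

end

end Pool.Agent.H2N.SO
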